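import Mathlib
import Pool.Agent.W743.GV.Stm

namespace Pool.Agent.W766.GV
open Pool.Agent.W743.GV
open Set Real

noncomputable section

theorem lf_apply (a b c : ℝ) (v : E3) : lf a b c v = a * v 0 + b * v 1 + c * v 2 := by
  simp [lf]

/-- the helix -/
def xi (t : ℝ) : E3 :=
  Real.cos t • (EuclideanSpace.single 0 (1 : ℝ) : E3)
    + Real.sin t • (EuclideanSpace.single 1 (1 : ℝ) : E3)
    + t • (EuclideanSpace.single 2 (1 : ℝ) : E3)

/-- the velocity of the helix -/
def xi' (t : ℝ) : E3 :=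
  (-Real.sin t) • (EuclideanSpace.single 0 (1 : ℝ) : E3)
    + Real.cos t • (EuclideanSpace.single 1 (1 : ℝ) : E3)
    + (1 : ℝ) • (EuclideanSpace.single 2 (1 : ℝ) : E3)

theorem xi_0 (t : ℝ) : xi t 0 = Real.cos t := by simp [xi]
theorem xi_1 (t : ℝ) : xi t 1 = Real.sin t := by simp [xi]
theorem xi_2 (t : ℝ) : xi t 2 = t := by simp [xi]
theorem xi'_0 (t : ℝ) : xi' t 0 = -Real.sin t := by simp [xi']
theorem xi'_1 (t : ℝ) : xi' t 1 = Real.cos t := by simp [xi']
theorem xi'_2 (t : ℝ) : xi' t 2 = 1 := by simp [xi']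

theorem xi_zero : xi 0 = !₂[1, 0, 0] := by
  ext i
  fin_cases i <;> simp [xi]

theorem hasDerivAt_xi (t : ℝ) : HasDerivAt xi (xi' t) t := by
  have h0 := (Real.hasDerivAt_cos t).smul_const (EuclideanSpace.single 0 (1 : ℝ) : E3)
  have h1 := (Real.hasDerivAt_sin t).smul_const (EuclideanSpace.single 1 (1 : ℝ) : E3)
  have h2 := (hasDerivAt_id t).smul_const (EuclideanSpace.single 2 (1 : ℝ) : E3)
  exact (h0.add h1).add h2

theorem ss_xi (t : ℝ) : ss (xi t) = 1 := by
  unfold ss
  rw [xi_0, xi_1]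
  exact Real.cos_sq_add_sin_sq t

theorem Lp_xi (b f : ℝ → ℝ) (t P : ℝ) : Lp b f (xi t) P (xi' t) = 0 := by
  unfold Lp
  rw [lf_apply, ss_xi, xi_0, xi_1, xi'_0, xi'_1, xi'_2]
  have h := Real.cos_sq_add_sin_sq t
  have h2 : Real.cos t ^ 2 = 1 - Real.sin t ^ 2 := by linarith
  ring_nf
  rw [h2]
  ring

theorem cont_xi : Continuous xi :=
  continuous_iff_continuousAt.2 fun t => (hasDerivAt_xi t).continuousAt

theorem t_HEL : S_HEL := by
  intro d b f U p hD hS c n h
  -- the helix stays in U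
  have hU : xi ⁻¹' U ∈ nhds (0 : ℝ) := by
    apply cont_xi.continuousAt.preimage_mem_nhds
    rw [xi_zero]
    exact hS.op.mem_nhds hS.pt
  obtain ⟨δ, hδ, hball⟩ := Metric.mem_nhds_iff.1 hU
  have hmem : ∀ t : ℝ, |t| < δ → xi t ∈ U := by
    intro t ht
    apply hball
    rw [Metric.mem_ball, Real.dist_eq, sub_zero]
    exact ht
  -- the pressure is constant along the helix
  have hder : ∀ t : ℝ, |t| < δ → HasDerivAt (fun u => p (xi u)) 0 t := by
    intro t ht
    have h1 := (hS.dp (xi t) (hmem t ht)).comp_hasDerivAt t (hasDerivAt_xi t)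
    rw [Lp_xi] at h1
    exact h1
  have hconst : ∀ t : ℝ, |t| < δ → p (xi t) = 1 := by
    intro t ht
    have hB : ∀ u ∈ Metric.ball (0 : ℝ) δ, |u| < δ := by
      intro u hu
      rw [Metric.mem_ball, Real.dist_eq, sub_zero] at hu
      exact hu
    have h2 : p (xi t) = p (xi 0) := by
      apply IsOpen.is_const_of_deriv_eq_zero (s := Metric.ball (0 : ℝ) δ) (f := fun u => p (xi u))
        Metric.isOpen_ball (convex_ball _ _).isPreconnected
      · intro u hu
        exact (hder u (hB u hu)).differentiableAt.differentiableWithinAt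
      · intro u hu
        exact (hder u (hB u hu)).deriv
      · rw [Metric.mem_ball, Real.dist_eq, sub_zero]
        exact ht
      · exact Metric.mem_ball_self hδ
    rw [h2, xi_zero, hS.p1]
  -- the main identity
  have hQ : QQ b f 1 1 = 0 := by
    unfold QQ; rw [hD.b1, hD.f1]; ring
  have hM : MM b f 1 1 = 3 := by
    unfold MM; rw [hD.b1, hD.f1]; ring
  have h3 : (0 : ℝ) < √3 := Real.sqrt_pos.2 (by norm_num)
  have hE : ∀ t : ℝ, |t| < δ →
      (-n 2 - n 0 * c 1 + n 1 * c 0) + (n 0 - n 1 * c 2 + n 2 * c 1) * Real.sin t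
        + (-n 1 + n 2 * c 0 - n 0 * c 2) * Real.cos t
        + n 1 * t * Real.sin t + n 0 * t * Real.cos t = 0 := by
    intro t ht
    have h1 := h (xi t) (hmem t ht)
    rw [(hS.dp (xi t) (hmem t ht)).fderiv, hconst t ht] at h1
    unfold Lp at h1
    rw [lf_apply, ss_xi, hQ, hM] at h1
    simp only [crs, PiLp.sub_apply, xi_0, xi_1, xi_2] at h1
    simp at h1
    have hcs := Real.cos_sq_add_sin_sq t
    have h4 : 2 * √3 * ((-n 2 - n 0 * c 1 + n 1 * c 0)
        + (n 0 - n 1 * c 2 + n 2 * c 1) * Real.sin t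
        + (-n 1 + n 2 * c 0 - n 0 * c 2) * Real.cos t
        + n 1 * t * Real.sin t + n 0 * t * Real.cos t) = 0 := by
      linear_combination h1 + 2 * √3 * n 2 * hcs
    rcases mul_eq_zero.1 h4 with h5 | h5
    · exfalso
      have : (0 : ℝ) < 2 * √3 := by positivity
      exact this.ne' h5
    · exact h5
  -- choose a small positive t
  set A : ℝ := -n 2 - n 0 * c 1 + n 1 * c 0 with hA
  set B : ℝ := n 0 - n 1 * c 2 + n 2 * c 1 with hB
  set C : ℝ := -n 1 + n 2 * c 0 - n 0 * c 2 with hC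
  obtain ⟨t, ht0, ht1, ht2⟩ : ∃ t : ℝ, 0 < t ∧ t < 1 ∧ 2 * t < δ := by
    refine ⟨min (1 / 2) (δ / 4), ?_, ?_, ?_⟩
    · positivity
    · exact lt_of_le_of_lt (min_le_left _ _) (by norm_num)
    · have := min_le_right (1 / 2) (δ / 4)
      linarith
  have hs : 0 < Real.sin t := Real.sin_pos_of_pos_of_lt_pi ht0 (by linarith [Real.pi_gt_three])
  have hc : Real.cos t < 1 := by
    have h1 := Real.cos_sq_add_sin_sq t
    nlinarith [Real.cos_le_one t]
  have e0 := hE 0 (by simpa using hδ)
  have e1 := hE t (by rw [abs_of_pos ht0]; linarith)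
  have e2 := hE (-t) (by rw [abs_neg, abs_of_pos ht0]; linarith)
  have e3 := hE (2 * t) (by rw [abs_of_pos (by linarith)]; linarith)
  have e4 := hE (-(2 * t)) (by rw [abs_neg, abs_of_pos (by linarith)]; linarith)
  simp only [Real.sin_zero, Real.cos_zero, mul_zero, mul_one, add_zero] at e0
  rw [Real.sin_neg, Real.cos_neg] at e2 e4
  rw [Real.sin_two_mul, Real.cos_two_mul] at e3 e4
  have hcs : Real.sin t ^ 2 = 1 - Real.cos t ^ 2 := by
    have := Real.cos_sq_add_sin_sq t
    linarith
  have odd1 : B * Real.sin t + n 0 * t * Real.cos t = 0 := by linear_combination (e1 - e2) / 2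
  have odd2 : B * Real.sin t * Real.cos t + n 0 * t * (2 * Real.cos t ^ 2 - 1) = 0 := by
    linear_combination (e3 - e4) / 4
  have hn0 : n 0 = 0 := by
    have h1 : n 0 * (t * Real.sin t ^ 2) = 0 := by
      rw [hcs]; linear_combination Real.cos t * odd1 - odd2
    rcases mul_eq_zero.1 h1 with h2 | h2
    · exact h2
    · exfalso
      have : 0 < t * Real.sin t ^ 2 := by positivity
      exact this.ne' h2
  have ev1 : A + C * Real.cos t + n 1 * t * Real.sin t = 0 := by linear_combination (e1 + e2) / 2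
  have ev2 : A + C * (2 * Real.cos t ^ 2 - 1) + 4 * n 1 * t * Real.sin t * Real.cos t = 0 := by
    linear_combination (e3 + e4) / 2
  have f1 : Real.sin t * (-C * Real.sin t + n 1 * t * (1 + Real.cos t)) = 0 := by
    linear_combination (1 + Real.cos t) * ev1 - (1 + Real.cos t) * e0 - C * hcs
  have f2 : Real.sin t * (-C * Real.sin t + 2 * n 1 * t * Real.cos t) = 0 := by
    linear_combination (ev2 - e0) / 2 - C * hcs
  have g1 : -C * Real.sin t + n 1 * t * (1 + Real.cos t) = 0 := by
    rcases mul_eq_zero.1 f1 with h2 | h2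
    · exact absurd h2 hs.ne'
    · exact h2
  have g2 : -C * Real.sin t + 2 * n 1 * t * Real.cos t = 0 := by
    rcases mul_eq_zero.1 f2 with h2 | h2
    · exact absurd h2 hs.ne'
    · exact h2
  have hn1 : n 1 = 0 := by
    have h1 : n 1 * (t * (1 - Real.cos t)) = 0 := by linear_combination g1 - g2
    rcases mul_eq_zero.1 h1 with h2 | h2
    · exact h2
    · exfalso
      have : 0 < t * (1 - Real.cos t) := mul_pos ht0 (by linarith)
      exact this.ne' h2
  have hC0 : C = 0 := by
    rw [hn1] at g1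
    have h1 : C * Real.sin t = 0 := by linear_combination -g1
    rcases mul_eq_zero.1 h1 with h2 | h2
    · exact h2
    · exact absurd h2 hs.ne'
  have hA0 : A = 0 := by linarith
  have hn2 : n 2 = 0 := by
    rw [hn0, hn1] at hA
    linarith
  ext i
  fin_cases i
  · simpa using hn0
  · simpa using hn1
  · simpa using hn2

end

end Pool.Agent.W766.GV
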